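import Pool.Agent.GEN.StmtsR

/-!
# Squad GEN, row DSB: the substitution `c ↦ c z^ω`
-/

set_option autoImplicit false

namespace Pool.Agent.GEN.H47

open MvPolynomial Pool.Agent.Helper6_Mono Pool.Agent.Helper30_Simp Pool.Agent.Helper30_Simp2
  Pool.Agent.GEN

section gen

variable {σ A : Type} [CommRing A]

/-- polynomials in one variable as polynomials in the variable `none` -/
noncomputable def jz (σ : Type) : Polynomial ℂ →+* MvPolynomial (Option σ) ℂ :=
  Polynomial.eval₂RingHom C (X none)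

/-- the substitution on polynomials with coefficients in `A` -/
noncomputable def Psi (ψ : A →+* Polynomial ℂ) : MvPolynomial σ A →+* MvPolynomial (Option σ) ℂ :=
  eval₂Hom ((jz σ).comp ψ) (fun i => X (some i))

theorem jz_eq {p : Polynomial ℂ} {d : ℕ} (h : p.natDegree ≤ d) :
    jz σ p = ∑ e ∈ Finset.range (d + 1), C (p.coeff e) * X none ^ e := by
  unfold jz
  rw [Polynomial.coe_eval₂RingHom, Polynomial.eval₂_eq_sum_range' C (Nat.lt_succ_of_le h)]

theorem pderiv_jz (i : σ) (p : Polynomial ℂ) : pderiv (some i) (jz σ p) = 0 := by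
  rw [jz_eq le_rfl, map_sum]
  refine Finset.sum_eq_zero fun e _ => ?_
  rw [pderiv_mul, pderiv_C, zero_mul, zero_add, pderiv_pow, pderiv_X_of_ne (by simp)]
  simp

theorem Psi_C (ψ : A →+* Polynomial ℂ) (a : A) :
    Psi ψ (C a : MvPolynomial σ A) = jz σ (ψ a) := by
  unfold Psi
  rw [coe_eval₂Hom, eval₂_C]
  rfl

theorem Psi_X (ψ : A →+* Polynomial ℂ) (i : σ) :
    Psi ψ (X i : MvPolynomial σ A) = X (some i) := by
  unfold Psi
  rw [coe_eval₂Hom, eval₂_X]

theorem Psi_pderiv (ψ : A →+* Polynomial ℂ) (i : σ) (p : MvPolynomial σ A) :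
    Psi ψ (pderiv i p) = pderiv (some i) (Psi ψ p) := by
  classical
  induction p using MvPolynomial.induction_on with
  | C a => rw [pderiv_C, map_zero, Psi_C, pderiv_jz]
  | add p q hp hq => rw [map_add, map_add, hp, hq, map_add, map_add]
  | mul_X p j hp =>
    rw [pderiv_mul, map_add, map_mul, map_mul, hp, map_mul, pderiv_mul, Psi_X]
    congr 1
    rw [pderiv_X, pderiv_X]
    congr 1
    by_cases h : i = j
    · subst h
      simp
    · rw [Pi.single_eq_of_ne (Ne.symm h), Pi.single_eq_of_ne (by simpa using Ne.symm h), map_zero]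

theorem Psi_dWord (ψ : A →+* Polynomial ℂ) (w : List σ) (p : MvPolynomial σ A) :
    Psi ψ (dWordR w p) = dWord (w.map some) (Psi ψ p) := by
  unfold dWordR dWord
  induction w with
  | nil => rfl
  | cons i w ih => rw [List.foldr_cons, Psi_pderiv, ih, List.map_cons, List.foldr_cons]

end gen

section main

variable {σ : Type}

/-- the polynomial with indeterminate coefficients -/
noncomputable def fA (f : MvPolynomial σ ℂ) : MvPolynomial σ (MvPolynomial f.support ℚ) :=
  ∑ α : f.support, monomial (α : σ →₀ ℕ) (X α)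

theorem dsb_core (hDsa : DsaStmt) [Finite σ] (f : MvPolynomial σ ℂ)
    (hc : AlgebraicIndependent ℚ (fun α : f.support => f.coeff (α : σ →₀ ℕ)))
    (b : Polynomial ℂ) (P : List (Polynomial (MvPolynomial σ ℂ) × List σ))
    (hP : ∀ n : ℕ, C (b.eval (n : ℂ)) * f ^ n =
      (P.map fun aw => aw.1.eval (n : MvPolynomial σ ℂ) * dWord aw.2 (f ^ (n + 1))).sum)
    (s₀ : ℚ) (hs₀ : b.eval (s₀ : ℂ) ≠ 0) :
    ∃ (bA : Polynomial (MvPolynomial f.support ℚ))
      (PA : List (Polynomial (MvPolynomial σ (MvPolynomial f.support ℚ)) × List σ)),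
      bA.eval (algebraMap ℚ (MvPolynomial f.support ℚ) s₀) ≠ 0 ∧ ∀ n : ℕ,
        C (bA.eval (n : MvPolynomial f.support ℚ)) * fA f ^ n =
          (PA.map fun aw => aw.1.eval (n : MvPolynomial σ (MvPolynomial f.support ℚ)) *
            dWordR aw.2 (fA f ^ (n + 1))).sum := by
  classical
  let _ : Algebra (MvPolynomial f.support ℚ) ℂ :=
    (aeval (R := ℚ) (fun α : f.support => f.coeff (α : σ →₀ ℕ))).toRingHom.toAlgebra
  have hmap : ∀ a : MvPolynomial f.support ℚ, algebraMap (MvPolynomial f.support ℚ) ℂ a =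
      aeval (fun α : f.support => f.coeff (α : σ →₀ ℕ)) a := fun a => rfl
  have hfA : map (algebraMap (MvPolynomial f.support ℚ) ℂ) (fA f) = f := by
    unfold fA
    rw [map_sum]
    simp only [map_monomial, hmap, aeval_X]
    rw [Finset.sum_coe_sort f.support (fun α => monomial α (f.coeff α))]
    exact f.support_sum_monomial_coeff
  refine hDsa σ (MvPolynomial f.support ℚ) hc (fA f) b P ?_ s₀ hs₀
  rw [hfA]
  exact hP

theorem Psi_monomial {A : Type} [CommRing A] (ψ : A →+* Polynomial ℂ) (α : σ →₀ ℕ) (a : A)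
    (c : ℂ) (k : ℕ) (h : ψ a = Polynomial.C c * Polynomial.X ^ k) :
    Psi ψ (monomial α a) = monomial (α.mapDomain some + Finsupp.single none k) c := by
  have e1 : monomial α a = C a * ∏ i ∈ α.support, (X i : MvPolynomial σ A) ^ α i := by
    rw [monomial_eq]
    rfl
  rw [e1, map_mul, Psi_C, map_prod, h]
  simp only [map_pow, Psi_X]
  have e2 : jz σ (Polynomial.C c * Polynomial.X ^ k) = C c * X none ^ k := by
    unfold jz
    rw [Polynomial.coe_eval₂RingHom, Polynomial.eval₂_mul, Polynomial.eval₂_C,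
      Polynomial.eval₂_pow, Polynomial.eval₂_X]
  have e3 : monomial (α.mapDomain some) (1 : ℂ) = ∏ i ∈ α.support, (X (some i) :
      MvPolynomial (Option σ) ℂ) ^ α i := by
    have h1 := rename_monomial (R := ℂ) (some : σ → Option σ) α 1
    rw [← h1, monomial_eq, map_mul, C_1, map_one, one_mul, Finsupp.prod, map_prod]
    simp only [map_pow, rename_X]
  rw [e2, ← e3, X_pow_eq_monomial, C_mul_monomial, mul_one, monomial_mul, mul_one, add_comm]

theorem Psi_fA (f : MvPolynomial σ ℂ) (ω : (σ →₀ ℕ) → ℕ)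
    (ψ : MvPolynomial f.support ℚ →+* Polynomial ℂ)
    (h : ∀ α : f.support, ψ (X α) = Polynomial.C (f.coeff (α : σ →₀ ℕ)) *
      Polynomial.X ^ ω (α : σ →₀ ℕ)) : Psi ψ (fA f) = liftF ω f := by
  unfold fA liftF
  rw [map_sum, ← Finset.sum_coe_sort f.support]
  refine Finset.sum_congr rfl fun α _ => ?_
  rw [Psi_monomial ψ _ _ _ _ (h α)]
  rfl

/-- the coefficient polynomials -/
noncomputable def bee (q : Polynomial (Polynomial ℂ)) (e : ℕ) : Polynomial ℂ :=
  ∑ k ∈ Finset.range (q.natDegree + 1), Polynomial.C ((q.coeff k).coeff e) * Polynomial.X ^ k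

theorem bee_eval (q : Polynomial (Polynomial ℂ)) (e : ℕ) (x : ℂ) :
    (bee q e).eval x = (q.eval (Polynomial.C x)).coeff e := by
  unfold bee
  rw [Polynomial.eval_eq_sum_range (p := q), Polynomial.eval_finsetSum,
    Polynomial.finsetSum_coeff]
  refine Finset.sum_congr rfl fun k _ => ?_
  rw [Polynomial.eval_mul, Polynomial.eval_C, Polynomial.eval_pow, Polynomial.eval_X,
    ← Polynomial.C_pow, Polynomial.coeff_mul_C]

/-- the bound of the exponents -/
noncomputable def dee (q : Polynomial (Polynomial ℂ)) : ℕ :=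
  ∑ k ∈ Finset.range (q.natDegree + 1), (q.coeff k).natDegree

theorem natDegree_eval_le (q : Polynomial (Polynomial ℂ)) (x : ℂ) :
    (q.eval (Polynomial.C x)).natDegree ≤ dee q := by
  rw [Polynomial.eval_eq_sum_range]
  refine Polynomial.natDegree_sum_le_of_forall_le _ _ fun k hk => ?_
  rw [← Polynomial.C_pow]
  refine (Polynomial.natDegree_mul_C_le _ _).trans ?_
  exact Finset.single_le_sum (f := fun k => (q.coeff k).natDegree) (fun _ _ => Nat.zero_le _) hk

theorem dsb (hGlb : GlbStmt) (hDsa : DsaStmt) : DsbStmt := by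
  intro σ _ f hc b hb s₀ hs₀ ω
  classical
  obtain ⟨P, hP⟩ := hGlb σ f b hb
  obtain ⟨bA, PA, hbA, hPA⟩ := dsb_core hDsa f hc b P hP s₀ hs₀
  set ψ : MvPolynomial f.support ℚ →+* Polynomial ℂ :=
    eval₂Hom (algebraMap ℚ (Polynomial ℂ)) (fun α : f.support =>
      Polynomial.C (f.coeff (α : σ →₀ ℕ)) * Polynomial.X ^ ω (α : σ →₀ ℕ)) with hψ
  have hψX : ∀ α : f.support, ψ (X α) = Polynomial.C (f.coeff (α : σ →₀ ℕ)) *
      Polynomial.X ^ ω (α : σ →₀ ℕ) := fun α => by rw [hψ, coe_eval₂Hom, eval₂_X]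
  have hψC : ∀ r : ℚ, ψ (algebraMap ℚ _ r) = Polynomial.C (r : ℂ) := fun r => by
    rw [hψ, coe_eval₂Hom, MvPolynomial.algebraMap_eq, eval₂_C]
    simp
  have hψinj : Function.Injective ψ := by
    have h1 : ((Polynomial.evalRingHom (1 : ℂ)).comp ψ) =
        (aeval (R := ℚ) (fun α : f.support => f.coeff (α : σ →₀ ℕ))).toRingHom := by
      refine MvPolynomial.ringHom_ext ?_ ?_
      · intro r
        have := hψC r
        rw [MvPolynomial.algebraMap_eq] at this
        rw [RingHom.comp_apply, this]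
        simp
      · intro α
        rw [RingHom.comp_apply, hψX]
        simp
    intro x y hxy
    apply hc
    have h2 := congrArg (fun g : MvPolynomial f.support ℚ →+* ℂ => g x) h1
    have h3 := congrArg (fun g : MvPolynomial f.support ℚ →+* ℂ => g y) h1
    simp only [RingHom.comp_apply, hxy] at h2 h3
    exact h2.symm.trans h3
  set q : Polynomial (Polynomial ℂ) := bA.map ψ with hq
  have hqn : ∀ n : ℕ, ψ (bA.eval (n : MvPolynomial f.support ℚ)) =
      q.eval (Polynomial.C (n : ℂ)) := by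
    intro n
    have h1 : Polynomial.C (n : ℂ) = ψ (n : MvPolynomial f.support ℚ) := by
      rw [map_natCast]
      simp
    rw [hq, h1, Polynomial.eval_map_apply]
  have hq0 : ψ (bA.eval (algebraMap ℚ (MvPolynomial f.support ℚ) s₀)) =
      q.eval (Polynomial.C (s₀ : ℂ)) := by
    rw [hq, ← hψC, Polynomial.eval_map_apply]
  refine ⟨dee q, bee q, ⟨PA.map (fun aw => (aw.1.map (Psi ψ), aw.2.map some)), ?_, ?_⟩, ?_⟩
  · intro aw haw
    rw [List.mem_map] at haw
    obtain ⟨bw, -, rfl⟩ := haw
    simp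
  · intro n
    have h1 := congrArg (Psi ψ) (hPA n)
    rw [map_mul, map_pow, Psi_C, Psi_fA f ω ψ hψX, hqn, jz_eq (natDegree_eval_le q _)] at h1
    simp only [bee_eval]
    rw [h1, map_list_sum, List.map_map, List.map_map]
    congr 1
    refine List.map_congr_left fun aw _ => ?_
    simp only [Function.comp]
    rw [map_mul, Psi_dWord, map_pow, Psi_fA f ω ψ hψX]
    congr 1
    have h2 : (n : MvPolynomial (Option σ) ℂ) =
        Psi ψ (n : MvPolynomial σ (MvPolynomial f.support ℚ)) := by
      rw [map_natCast]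
    rw [h2, Polynomial.eval_map_apply]
  · have h1 : q.eval (Polynomial.C (s₀ : ℂ)) ≠ 0 := by
      rw [← hq0]
      intro h
      exact hbA (hψinj (h.trans (map_zero ψ).symm))
    obtain ⟨e, he⟩ : ∃ e, (q.eval (Polynomial.C (s₀ : ℂ))).coeff e ≠ 0 := by
      by_contra hcon
      push Not at hcon
      exact h1 (Polynomial.ext (fun e => by rw [hcon e, Polynomial.coeff_zero]))
    refine ⟨e, ?_, ?_⟩
    · exact (Polynomial.le_natDegree_of_ne_zero he).trans (natDegree_eval_le q _)
    · rw [bee_eval]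
      exact he

end main

end Pool.Agent.GEN.H47
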