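import Pool.Agent.GEN.StmtsR

/-!
# Squad GEN, row GWB: generic lifting
-/

set_option autoImplicit false

namespace Pool.Agent.GEN.H47

open MvPolynomial Finset Pool.Agent.Helper6_Mono Pool.Agent.Helper30_Simp
  Pool.Agent.Helper30_Simp2 Pool.Agent.GEN

/-! ### the lift -/

section lift

variable {σ : Type}

theorem lft_some (ω : (σ →₀ ℕ) → ℕ) (α : σ →₀ ℕ) (i : σ) : lft ω α (some i) = α i := by
  unfold lft
  rw [Finsupp.add_apply, Finsupp.mapDomain_apply (Option.some_injective σ),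
    Finsupp.single_eq_of_ne (by simp), add_zero]

theorem lft_none (ω : (σ →₀ ℕ) → ℕ) (α : σ →₀ ℕ) : lft ω α none = ω α := by
  unfold lft
  rw [Finsupp.add_apply, Finsupp.mapDomain_of_notMem_range _ _ (by simp), Finsupp.single_eq_same,
    zero_add]

theorem lft_inj (ω : (σ →₀ ℕ) → ℕ) : Function.Injective (lft (σ := σ) ω) := by
  intro α β h
  ext i
  rw [← lft_some ω α i, ← lft_some ω β i, h]

theorem mem_lift {ω : (σ →₀ ℕ) → ℕ} {f : MvPolynomial σ ℂ} {m : Option σ →₀ ℕ} :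
    m ∈ (liftF ω f).support ↔ ∃ α ∈ f.support, lft ω α = m := by
  classical
  rw [mem_support_iff]
  unfold liftF
  rw [coeff_sum]
  simp only [coeff_monomial]
  constructor
  · intro h
    obtain ⟨α, hα, h1⟩ := Finset.exists_ne_zero_of_sum_ne_zero h
    refine ⟨α, hα, ?_⟩
    by_contra h2
    rw [if_neg h2] at h1
    exact h1 rfl
  · rintro ⟨α, hα, rfl⟩
    rw [Finset.sum_eq_single_of_mem α hα, if_pos rfl]
    · exact mem_support_iff.1 hα
    · intro β _ hβ
      rw [if_neg (fun h => hβ (lft_inj ω h))]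

theorem lift_support [DecidableEq (Option σ →₀ ℕ)] (ω : (σ →₀ ℕ) → ℕ) (f : MvPolynomial σ ℂ) :
    (liftF ω f).support = f.support.image (lft ω) := by
  ext m
  rw [mem_lift, Finset.mem_image]

theorem card_lift (ω : (σ →₀ ℕ) → ℕ) (f : MvPolynomial σ ℂ) :
    (liftF ω f).support.card = f.support.card := by
  classical
  rw [lift_support, Finset.card_image_of_injective _ (lft_inj ω)]

theorem sum_lift {R : Type} [AddCommMonoid R] (ω : (σ →₀ ℕ) → ℕ) (f : MvPolynomial σ ℂ)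
    (g : (Option σ →₀ ℕ) → R) :
    ∑ α ∈ (liftF ω f).support, g α = ∑ α ∈ f.support, g (lft ω α) := by
  classical
  rw [lift_support, Finset.sum_image (fun x _ y _ h => lft_inj ω h)]

/-- the bijection of the supports -/
noncomputable def gl (ω : (σ →₀ ℕ) → ℕ) (f : MvPolynomial σ ℂ) (α : f.support) : (liftF ω f).support :=
  ⟨lft ω α, mem_lift.2 ⟨α, α.2, rfl⟩⟩

theorem gl_bij (ω : (σ →₀ ℕ) → ℕ) (f : MvPolynomial σ ℂ) : Function.Bijective (gl ω f) := by
  constructor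
  · intro α β h
    exact Subtype.ext (lft_inj ω (congrArg Subtype.val h))
  · rintro ⟨m, hm⟩
    obtain ⟨α, hα, rfl⟩ := mem_lift.1 hm
    exact ⟨⟨α, hα⟩, rfl⟩

theorem sum_sub {R : Type} [AddCommMonoid R] {M B : Finset (σ →₀ ℕ)} (h : B ⊆ M) (G : M → R)
    (h0 : ∀ α : M, (α : σ →₀ ℕ) ∉ B → G α = 0) :
    ∑ α, G α = ∑ α : B, G ⟨α, h α.2⟩ := by
  classical
  have hinj : Function.Injective (fun α : B => (⟨α, h α.2⟩ : M)) := fun α β hab =>
    Subtype.ext (congrArg (fun x : M => (x : σ →₀ ℕ)) hab)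
  have h1 : ∑ α : B, G ⟨α, h α.2⟩ =
      ∑ β ∈ (univ : Finset B).image (fun α : B => (⟨α, h α.2⟩ : M)), G β := by
    rw [Finset.sum_image (fun x _ y _ hxy => hinj hxy)]
  rw [h1]
  symm
  refine Finset.sum_subset (Finset.subset_univ _) fun β _ hβ => h0 β fun hB => hβ ?_
  rw [Finset.mem_image]
  exact ⟨(⟨(β : σ →₀ ℕ), hB⟩ : B), mem_univ _, rfl⟩

variable [Fintype σ]

theorem dot_lift {R : Type} [CommSemiring R] (w : Option σ → R) (ω : (σ →₀ ℕ) → ℕ)
    (α : σ →₀ ℕ) : dot w (lft ω α) = w none * (ω α : R) + ∑ i, w (some i) * (α i : R) := by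
  unfold dot
  rw [Fintype.sum_option, lft_none]
  simp only [lft_some]

theorem pairing {R : Type} [CommRing R] (f : MvPolynomial σ ℂ) (ω : (σ →₀ ℕ) → ℕ)
    (w : Option σ → R) (ν : f.support → R) :
    ∑ α : f.support, ν α * dot w (lft ω α) = w none * ∑ α : f.support, ν α * (ω α : R) +
      ∑ i, w (some i) * ∑ α : f.support, ν α * (((α : σ →₀ ℕ) i : ℕ) : R) := by
  simp only [dot_lift, mul_add, Finset.sum_add_distrib, Finset.mul_sum]
  congr 1
  · exact Finset.sum_congr rfl fun α _ => by ring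
  · rw [Finset.sum_comm]
    exact Finset.sum_congr rfl fun i _ => Finset.sum_congr rfl fun α _ => by ring

end lift

/-! ### linear algebra -/

theorem descend {ι J : Type} [Fintype ι] (L : J → ι → ℤ) (x : ι → ℂ) (T : Finset ι)
    (h0 : ∀ α, α ∉ T → x α = 0) (hL : ∀ j, ∑ α, x α * (L j α : ℂ) = 0) (hs : ∑ α, x α ≠ 0) :
    ∃ ν : ι → ℤ, (∀ α, α ∉ T → ν α = 0) ∧ (∀ j, ∑ α, ν α * L j α = 0) ∧ ∑ α, ν α ≠ 0 := by
  classical
  obtain ⟨φ, hφ⟩ : ∃ φ : ℂ →ₗ[ℚ] ℚ, φ (∑ α, x α) ≠ 0 := by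
    by_contra hcon
    push Not at hcon
    exact hs ((Module.forall_dual_apply_eq_zero_iff ℚ _).1 hcon)
  have hint : ∀ α, ∃ n : ℤ, (n : ℚ) = (∏ β, ((φ (x β)).den : ℚ)) * φ (x α) := by
    intro α
    refine ⟨(∏ β ∈ univ.erase α, ((φ (x β)).den : ℤ)) * (φ (x α)).num, ?_⟩
    rw [← Finset.mul_prod_erase univ _ (mem_univ α)]
    push_cast
    have h1 : ((φ (x α)).den : ℚ) * φ (x α) = (φ (x α)).num := by
      rw [mul_comm]
      exact Rat.mul_den_eq_num _
    rw [mul_assoc, mul_comm (∏ β ∈ univ.erase α, ((φ (x β)).den : ℚ)) (φ (x α)), ← mul_assoc, h1]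
    ring
  choose ν hν using hint
  have hd : (∏ β, ((φ (x β)).den : ℚ)) ≠ 0 := by
    rw [Finset.prod_ne_zero_iff]
    intro β _
    exact_mod_cast (φ (x β)).den_ne_zero
  refine ⟨ν, ?_, ?_, ?_⟩
  · intro α hα
    have h1 := hν α
    rw [h0 α hα, map_zero, mul_zero] at h1
    exact_mod_cast h1
  · intro j
    have h1 : ((∑ α, ν α * L j α : ℤ) : ℚ) = (∏ β, ((φ (x β)).den : ℚ)) *
        φ (∑ α, x α * (L j α : ℂ)) := by
      push_cast
      rw [map_sum, Finset.mul_sum]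
      refine Finset.sum_congr rfl fun α _ => ?_
      have h2 : φ (x α * (L j α : ℂ)) = φ (x α) * (L j α : ℚ) := by
        rw [mul_comm, ← zsmul_eq_mul, map_zsmul, zsmul_eq_mul, mul_comm]
      rw [h2, hν α]
      ring
    rw [hL j, map_zero, mul_zero] at h1
    exact_mod_cast h1
  · intro h1
    have h2 : ((∑ α, ν α : ℤ) : ℚ) = (∏ β, ((φ (x β)).den : ℚ)) * φ (∑ α, x α) := by
      push_cast
      rw [map_sum, Finset.mul_sum]
      exact Finset.sum_congr rfl fun α _ => hν α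
    rw [h1, Int.cast_zero] at h2
    exact (mul_ne_zero hd hφ) h2.symm

theorem exists_lam {σ : Type} [Fintype σ] {B : Finset (σ →₀ ℕ)} {κ : σ → ℕ}
    (hflat : ∀ v : σ → ℚ, (∀ i, κ i = 0 → v i = 0) → (∀ α ∈ B, ∑ i, v i * (α i : ℚ) = 0) →
      ∑ i, v i = 0) :
    ∃ lam : (σ →₀ ℕ) → ℚ, ∀ j, κ j ≠ 0 → ∑ α ∈ B, lam α * (α j : ℚ) = -1 := by
  classical
  set b : B → ({i // κ i ≠ 0} → ℚ) := fun α i => ((α : σ →₀ ℕ) (i : σ) : ℚ) with hb
  have hmem : (fun _ => -1 : {i // κ i ≠ 0} → ℚ) ∈ Submodule.span ℚ (Set.range b) := by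
    by_contra hcon
    obtain ⟨φ, hφ, hker⟩ := Submodule.exists_le_ker_of_notMem hcon
    set v : σ → ℚ := fun i => if h : κ i ≠ 0 then φ (Pi.single ⟨i, h⟩ 1) else 0 with hv
    have hφx : ∀ x : {i // κ i ≠ 0} → ℚ, ∀ y : σ → ℚ, (∀ i : {i // κ i ≠ 0}, x i = y i) →
        φ x = ∑ i, v i * y i := by
      intro x y hxy
      rw [LinearMap.pi_apply_eq_sum_univ φ x]
      have h1 : ∑ i, v i * y i = ∑ i ∈ univ.filter (fun i => κ i ≠ 0), v i * y i := by
        rw [Finset.sum_filter]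
        refine Finset.sum_congr rfl fun i _ => ?_
        split_ifs with h
        · rfl
        · rw [hv]
          simp only [dif_neg h, zero_mul]
      rw [h1, Finset.sum_subtype (univ.filter (fun i => κ i ≠ 0)) (p := fun i => κ i ≠ 0)
        (by simp)]
      refine Finset.sum_congr rfl fun i _ => ?_
      rw [hxy i, smul_eq_mul, mul_comm]
      congr 1
      simp only [hv]
      rw [dif_pos i.2]
      congr 1
      funext j
      by_cases hij : i = j
      · subst hij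
        rw [if_pos rfl]
        exact (Pi.single_eq_same (M := fun _ : {i // κ i ≠ 0} => ℚ) i 1).symm
      · rw [if_neg hij]
        exact (Pi.single_eq_of_ne (M := fun _ : {i // κ i ≠ 0} => ℚ) (Ne.symm hij) 1).symm
    have h1 := hflat v (fun i hi => by simp only [hv]; rw [dif_neg (by simpa using hi)])
      (fun α hα => by
        rw [← hφx (b ⟨α, hα⟩) (fun i => (α i : ℚ)) (fun i => rfl)]
        exact LinearMap.mem_ker.1 (hker (Submodule.subset_span ⟨⟨α, hα⟩, rfl⟩)))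
    apply hφ
    rw [hφx (fun _ => -1) (fun _ => -1) (fun _ => rfl), ← Finset.sum_mul, h1, zero_mul]
  rw [Submodule.mem_span_range_iff_exists_fun] at hmem
  obtain ⟨c, hc⟩ := hmem
  refine ⟨fun α => if h : α ∈ B then c ⟨α, h⟩ else 0, fun j hj => ?_⟩
  have h1 := congrFun hc ⟨j, hj⟩
  rw [Finset.sum_apply] at h1
  rw [← h1, ← Finset.sum_coe_sort B]
  refine Finset.sum_congr rfl fun α _ => ?_
  simp only [hb, Pi.smul_apply, smul_eq_mul]
  rw [dif_pos α.2]

/-! ### the choices -/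

/-- relations of sum zero supported in `T` -/
def RelP {σ : Type} (f : MvPolynomial σ ℂ) (T : Finset f.support) (ν : f.support → ℤ) : Prop :=
  ν ≠ 0 ∧ (∀ α, α ∉ T → ν α = 0) ∧ ∑ α, ν α = 0 ∧
    ∀ j, ∑ α : f.support, ν α * (((α : σ →₀ ℕ) j : ℕ) : ℤ) = 0

/-- vectors of nonzero sum supported in `T`, orthogonal to the coordinates in `D` -/
def RelQ {σ : Type} (f : MvPolynomial σ ℂ) (T : Finset f.support) (D : Finset σ)
    (ν : f.support → ℤ) : Prop :=
  (∀ α, α ∉ T → ν α = 0) ∧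
    (∀ j ∈ D, ∑ α : f.support, ν α * (((α : σ →₀ ℕ) j : ℕ) : ℤ) = 0) ∧ ∑ α, ν α ≠ 0

theorem simpA_of {σ : Type} [Fintype σ] (f : MvPolynomial σ ℂ) (ω : (σ →₀ ℕ) → ℕ)
    (F : Finset f.support → f.support → ℤ)
    (hF : ∀ T, (∃ ν, RelP f T ν) → RelP f T (F T) ∧ ∑ α : f.support, F T α * (ω α : ℤ) ≠ 0)
    (κ' : Option σ → ℕ) (N : ℕ) (hN : 0 < N) (hq : κ' none ≠ 0) :
    SimpA (liftF ω f).support (actv σ) κ' N := by
  classical
  intro u _ hu hdot t ht htight
  set ν : f.support → ℤ := fun α => t (gl ω f α) with hν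
  have hu0 : u none = (κ' none : ℝ) := hu none (by simp [actv])
  have hnν : ∀ α : f.support, (dot u (lft ω (α : σ →₀ ℕ)) ≠ (N : ℝ)) → ν α = 0 := by
    intro α hα
    refine htight (gl ω f α) ?_
    exact lt_of_le_of_ne (hdot _ (gl ω f α).2) (Ne.symm hα)
  have hsome : ∀ j, ∑ α : f.support, ν α * (((α : σ →₀ ℕ) j : ℕ) : ℤ) = 0 := by
    intro j
    have h1 := ht (some j)
    rw [← (gl_bij ω f).sum_comp] at h1
    simp only [gl, lft_some] at h1
    exact h1
  have hnone : ∑ α : f.support, ν α * ((ω α : ℕ) : ℤ) = 0 := by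
    have h1 := ht none
    rw [← (gl_bij ω f).sum_comp] at h1
    simp only [gl, lft_none] at h1
    exact h1
  have key : ∀ μ : f.support → ℤ, (∀ α : f.support, (dot u (lft ω (α : σ →₀ ℕ)) ≠ (N : ℝ)) → μ α = 0) →
      (∀ j, ∑ α : f.support, μ α * (((α : σ →₀ ℕ) j : ℕ) : ℤ) = 0) →
      (N : ℝ) * ((∑ α, μ α : ℤ) : ℝ) = (κ' none : ℝ) *
        ((∑ α : f.support, μ α * ((ω α : ℕ) : ℤ) : ℤ) : ℝ) := by
    intro μ h1 h2
    have h3 := pairing f ω u (fun α => (μ α : ℝ))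
    have h4 : ∀ i, ∑ α : f.support, (μ α : ℝ) * (((α : σ →₀ ℕ) i : ℕ) : ℝ) = 0 := by
      intro i
      have h5 := congrArg (fun z : ℤ => (z : ℝ)) (h2 i)
      push_cast at h5
      exact h5
    have h6 : ∑ α : f.support, (μ α : ℝ) * dot u (lft ω (α : σ →₀ ℕ)) =
        (N : ℝ) * ((∑ α, μ α : ℤ) : ℝ) := by
      push_cast
      rw [Finset.mul_sum]
      refine Finset.sum_congr rfl fun α _ => ?_
      by_cases hα : dot u (lft ω (α : σ →₀ ℕ)) = (N : ℝ)
      · rw [hα, mul_comm]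
      · rw [h1 α hα]
        simp
    rw [h6] at h3
    rw [h3, hu0]
    simp only [h4, mul_zero, Finset.sum_const_zero, add_zero]
    push_cast
    ring
  have hsum0 : ∑ α, ν α = 0 := by
    have h1 := key ν hnν hsome
    rw [hnone, Int.cast_zero, mul_zero] at h1
    have hN' : (N : ℝ) ≠ 0 := by exact_mod_cast hN.ne'
    have h2 := (mul_eq_zero.1 h1).resolve_left hN'
    exact_mod_cast h2
  have hν0 : ν = 0 := by
    by_contra hne
    obtain ⟨⟨-, f2, f3, f4⟩, f5⟩ := hF (univ.filter (fun α : f.support =>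
      dot u (lft ω (α : σ →₀ ℕ)) = (N : ℝ))) ⟨ν, hne, fun α hα => hnν α (by simpa using hα),
        hsum0, hsome⟩
    have h1 := key _ (fun α hα => f2 α (by simpa using hα)) f4
    rw [f3, Int.cast_zero, mul_zero] at h1
    have hq' : (κ' none : ℝ) ≠ 0 := by exact_mod_cast hq
    have h2 := (mul_eq_zero.1 h1.symm).resolve_left hq'
    exact f5 (by exact_mod_cast h2)
  ext α
  obtain ⟨β, rfl⟩ := (gl_bij ω f).2 α
  exact congrFun hν0 β

theorem sumA_of {σ : Type} [Fintype σ] (f : MvPolynomial σ ℂ) (ω : (σ →₀ ℕ) → ℕ)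
    (H : Finset f.support → Finset σ → f.support → ℤ)
    (hH : ∀ T D, (∃ ν, RelQ f T D ν) → RelQ f T D (H T D)) (κ : σ → ℕ) (N K q : ℕ)
    (hN : 0 < N) (hK : ∀ T D, (∑ α : f.support, H T D α * ((ω α : ℕ) : ℤ)).natAbs < K)
    (hq : 0 < q) (B : Finset (σ →₀ ℕ)) (hBM : B ⊆ f.support) (hBN : ∀ α ∈ B, dot κ α = N)
    (lam : (σ →₀ ℕ) → ℚ) (hlam : ∀ j, κ j ≠ 0 → ∑ α ∈ B, lam α * (α j : ℚ) = -1)
    (κ' : Option σ → ℕ) (hκn : κ' none = q) (hκ0 : ∀ i, κ i = 0 → κ' (some i) = 0)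
    (hκs : ∑ i, κ' (some i) = q * (K * ∑ i, κ i))
    (hB : ∀ α ∈ B, dot κ' (lft ω α) = q * (K * N))
    (hface : ∀ α ∈ face (liftF ω f).support κ', dot κ' α = q * (K * N)) :
    SumA (liftF ω f).support (actv σ) κ' (q * (K * N)) := by
  classical
  intro m hm0 hm1
  set x : f.support → ℂ := fun α => m (lft ω (α : σ →₀ ℕ)) -
    (if (α : σ →₀ ℕ) ∈ B then ((lam α : ℚ) : ℂ) else 0) with hx
  set T : Finset f.support := univ.filter (fun α : f.support =>
    dot κ' (lft ω (α : σ →₀ ℕ)) = q * (K * N)) with hT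
  set D : Finset σ := univ.filter (fun j => κ' (some j) ≠ 0) with hD
  have sB : ∀ g : (σ →₀ ℕ) → ℂ, ∑ α : f.support,
      (if (α : σ →₀ ℕ) ∈ B then ((lam α : ℚ) : ℂ) else 0) * g α =
        ∑ α ∈ B, ((lam α : ℚ) : ℂ) * g α := by
    intro g
    rw [sum_sub hBM _ (fun α hα => by rw [if_neg hα, zero_mul]), ← Finset.sum_coe_sort B]
    refine Finset.sum_congr rfl fun α _ => ?_
    rw [if_pos α.2]
  have sM : ∀ g : (Option σ →₀ ℕ) → ℂ, ∑ α ∈ (liftF ω f).support, m α * g α =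
      ∑ α : f.support, m (lft ω (α : σ →₀ ℕ)) * g (lft ω (α : σ →₀ ℕ)) := by
    intro g
    rw [sum_lift, ← Finset.sum_coe_sort f.support]
  have lamC : ∀ j, κ j ≠ 0 → ∑ α ∈ B, ((lam α : ℚ) : ℂ) * ((α j : ℕ) : ℂ) = -1 := by
    intro j hj
    have h1 := congrArg (fun z : ℚ => (z : ℂ)) (hlam j hj)
    push_cast at h1
    exact h1
  have hx0 : ∀ α, α ∉ T → x α = 0 := by
    intro α hα
    have h1 : dot κ' (lft ω (α : σ →₀ ℕ)) ≠ q * (K * N) := by simpa [hT] using hα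
    have h2 : m (lft ω (α : σ →₀ ℕ)) = 0 := hm0 _ (fun h => h1 (hface _ h))
    have h3 : (α : σ →₀ ℕ) ∉ B := fun h => h1 (hB _ h)
    simp only [hx]
    rw [h2, if_neg h3, sub_zero]
  have hxD : ∀ j : D, ∑ α, x α * (((((α : σ →₀ ℕ) (j : σ) : ℕ) : ℤ) : ℂ)) = 0 := by
    rintro ⟨j, hj⟩
    have hj' : κ' (some j) ≠ 0 := by simpa [hD] using hj
    have hκj : κ j ≠ 0 := fun h => hj' (hκ0 j h)
    have h1 := hm1 (some j) hj' (by simp [actv])
    rw [sM (fun α => ((α (some j) : ℕ) : ℂ))] at h1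
    simp only [lft_some] at h1
    have h2 := sB (fun α => ((α j : ℕ) : ℂ))
    rw [lamC j hκj] at h2
    simp only [hx, sub_mul, Finset.sum_sub_distrib, Int.cast_natCast]
    rw [h1, h2, sub_self]
  have hxs : ∑ α, x α = 0 := by
    by_contra hne
    obtain ⟨ν, v1, v2, v3⟩ := descend (fun (j : D) (α : f.support) =>
      ((((α : σ →₀ ℕ) (j : σ) : ℕ) : ℤ))) x T hx0 hxD hne
    obtain ⟨w1, w2, w3⟩ := hH T D ⟨ν, v1, fun j hj => v2 ⟨j, hj⟩, v3⟩
    have h1 := pairing f ω (fun i => (κ' i : ℤ)) (H T D)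
    have h2 : ∀ α : Option σ →₀ ℕ, dot (fun i => (κ' i : ℤ)) α = ((dot κ' α : ℕ) : ℤ) := by
      intro α
      unfold dot
      push_cast
      rfl
    have h3 : ∑ α : f.support, H T D α * dot (fun i => (κ' i : ℤ)) (lft ω (α : σ →₀ ℕ)) =
        ((q * (K * N) : ℕ) : ℤ) * ∑ α, H T D α := by
      rw [Finset.mul_sum]
      refine Finset.sum_congr rfl fun α _ => ?_
      by_cases hα : α ∈ T
      · have h4 : dot κ' (lft ω (α : σ →₀ ℕ)) = q * (K * N) := by simpa [hT] using hα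
        rw [h2, h4, mul_comm]
      · rw [w1 α hα]
        simp
    have h5 : ∑ i, (fun i => (κ' i : ℤ)) (some i) * ∑ α : f.support, H T D α *
        ((((α : σ →₀ ℕ) i : ℕ)) : ℤ) = 0 := by
      refine Finset.sum_eq_zero fun i _ => ?_
      by_cases hi : i ∈ D
      · rw [w2 i hi, mul_zero]
      · have : κ' (some i) = 0 := by simpa [hD] using hi
        simp [this]
    rw [h3, h5, add_zero] at h1
    simp only [hκn] at h1
    have hqZ : (q : ℤ) ≠ 0 := by exact_mod_cast hq.ne'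
    have h6 : ((K * N : ℕ) : ℤ) * ∑ α, H T D α = ∑ α : f.support, H T D α * ((ω α : ℕ) : ℤ) := by
      apply mul_left_cancel₀ hqZ
      rw [← h1]
      push_cast
      ring
    have h7 := congrArg Int.natAbs h6
    rw [Int.natAbs_mul, Int.natAbs_natCast] at h7
    have h8 := hK T D
    have h9 : 1 ≤ (∑ α, H T D α).natAbs := Int.natAbs_pos.2 w3
    have h10 : K * 1 ≤ K * N * (∑ α, H T D α).natAbs := by
      rw [mul_assoc]
      exact Nat.mul_le_mul_left K (Nat.succ_le_of_lt (Nat.mul_pos hN h9))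
    omega
  have hsum : ∑ α ∈ (liftF ω f).support, m α = ∑ α ∈ B, ((lam α : ℚ) : ℂ) := by
    have h1 := sM (fun _ => 1)
    have h2 := sB (fun _ => 1)
    simp only [mul_one] at h1 h2
    rw [h1, ← h2, ← sub_eq_zero, ← Finset.sum_sub_distrib]
    exact hxs
  have hN1 : (N : ℂ) * ∑ α ∈ B, ((lam α : ℚ) : ℂ) = -∑ i, (κ i : ℂ) := by
    have h1 : ∀ α ∈ B, (N : ℂ) * ((lam α : ℚ) : ℂ) =
        ∑ i, (κ i : ℂ) * (((lam α : ℚ) : ℂ) * ((α i : ℕ) : ℂ)) := by
      intro α hα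
      have h2 := hBN α hα
      unfold dot at h2
      rw [← h2]
      push_cast
      rw [Finset.sum_mul]
      exact Finset.sum_congr rfl fun i _ => by ring
    rw [Finset.mul_sum, Finset.sum_congr rfl h1, Finset.sum_comm, ← Finset.sum_neg_distrib]
    refine Finset.sum_congr rfl fun i _ => ?_
    rw [← Finset.mul_sum]
    by_cases hi : κ i = 0
    · rw [hi]
      simp
    · rw [lamC i hi]
      ring
  have hR : (∑ i, if i ∈ actv σ then (κ' i : ℂ) else 0) = ((q * (K * ∑ i, κ i) : ℕ) : ℂ) := by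
    rw [Fintype.sum_option, if_neg (by simp [actv]), zero_add, ← hκs]
    push_cast
    refine Finset.sum_congr rfl fun i _ => ?_
    rw [if_pos (by simp [actv])]
  rw [hsum, hR]
  push_cast
  rw [mul_assoc, mul_assoc, hN1]
  ring

/-! ### the row -/

theorem gwb (hG : GwaStmt) : GwbStmt := by
  intro σ _ f κ N B hN hM hBM hBne hBN hind hflat hub
  classical
  obtain ⟨F, hF⟩ : ∃ F : Finset f.support → f.support → ℤ, ∀ T, (∃ ν, RelP f T ν) →
      RelP f T (F T) :=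
    ⟨fun T => if h : ∃ ν, RelP f T ν then h.choose else 0, fun T h => by
      simp only [dif_pos h]
      exact h.choose_spec⟩
  obtain ⟨H, hH⟩ : ∃ H : Finset f.support → Finset σ → f.support → ℤ,
      ∀ T D, (∃ ν, RelQ f T D ν) → RelQ f T D (H T D) :=
    ⟨fun T D => if h : ∃ ν, RelQ f T D ν then h.choose else 0, fun T D h => by
      simp only [dif_pos h]
      exact h.choose_spec⟩
  obtain ⟨ω₀, hω0, hω1⟩ := hG f.support (univ.filter (fun α : f.support => (α : σ →₀ ℕ) ∈ B))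
    ((univ.filter (fun T => ∃ ν, RelP f T ν)).image F) (by
      intro ν hν
      obtain ⟨T, hT, rfl⟩ := Finset.mem_image.1 hν
      obtain ⟨hne, hsupp, hsum, horth⟩ := hF T (Finset.mem_filter.1 hT).2
      by_contra hcon
      push Not at hcon
      have h0 : ∀ α : f.support, (α : σ →₀ ℕ) ∉ B → F T α = 0 := fun α hα =>
        hcon α (by simpa using hα)
      have h1 := hind (fun α => F T ⟨α, hBM α.2⟩) (fun j => by
        have h2 := horth j
        rw [sum_sub hBM _ (fun α hα => by rw [h0 α hα, zero_mul])] at h2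
        exact h2)
      apply hne
      funext α
      by_cases hα : (α : σ →₀ ℕ) ∈ B
      · exact congrFun h1 ⟨α, hα⟩
      · exact h0 α hα)
  set ω : (σ →₀ ℕ) → ℕ := fun α => if h : α ∈ f.support then ω₀ ⟨α, h⟩ else 0 with hω
  have hωv : ∀ α : f.support, ω (α : σ →₀ ℕ) = ω₀ α := fun α => by
    simp only [hω]
    rw [dif_pos α.2]
  have hωB : ∀ α ∈ f.support, ω α = 0 ↔ α ∈ B := fun α hα => by
    have h1 := hω0 ⟨α, hα⟩
    rw [hωv ⟨α, hα⟩, h1]
    simp
  have hF' : ∀ T, (∃ ν, RelP f T ν) → RelP f T (F T) ∧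
      ∑ α : f.support, F T α * ((ω (α : σ →₀ ℕ) : ℕ) : ℤ) ≠ 0 := by
    intro T hT
    refine ⟨hF T hT, ?_⟩
    have h1 := hω1 (F T) (Finset.mem_image.2 ⟨T, Finset.mem_filter.2 ⟨mem_univ _, hT⟩, rfl⟩)
    intro h2
    apply h1
    rw [← h2]
    refine Finset.sum_congr rfl fun α _ => ?_
    rw [hωv, mul_comm]
  obtain ⟨lam, hlam⟩ := exists_lam hflat
  refine ⟨ω, 1 + ∑ T : Finset f.support, ∑ D : Finset σ,
    (∑ α : f.support, H T D α * ((ω (α : σ →₀ ℕ) : ℕ) : ℤ)).natAbs, ?_⟩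
  intro K hK
  have hK1 : 1 ≤ K := by omega
  have hKb : ∀ T D, (∑ α : f.support, H T D α * ((ω (α : σ →₀ ℕ) : ℕ) : ℤ)).natAbs < K := by
    intro T D
    have h1 := Finset.single_le_sum (f := fun D : Finset σ =>
      (∑ α : f.support, H T D α * ((ω (α : σ →₀ ℕ) : ℕ) : ℤ)).natAbs)
      (fun _ _ => Nat.zero_le _) (mem_univ D)
    have h2 := Finset.single_le_sum (f := fun T : Finset f.support => ∑ D : Finset σ,
      (∑ α : f.support, H T D α * ((ω (α : σ →₀ ℕ) : ℕ) : ℤ)).natAbs)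
      (fun _ _ => Nat.zero_le _) (mem_univ T)
    omega
  set κ₁ : Option σ → ℕ := wOpt (fun i => K * κ i) 1 with hκ₁
  have hdot : ∀ α : σ →₀ ℕ, dot κ₁ (lft ω α) = ω α + K * dot κ α := by
    intro α
    rw [dot_lift]
    simp only [hκ₁, wOpt, Nat.cast_id, one_mul]
    unfold dot
    rw [Finset.mul_sum]
    congr 1
    exact Finset.sum_congr rfl fun i _ => by rw [mul_assoc, Nat.cast_id]
  have hBd : ∀ α ∈ B, dot κ₁ (lft ω α) = K * N := fun α hα => by
    rw [hdot, (hωB α (hBM hα)).2 hα, hBN α hα, zero_add]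
  have hge : ∀ α ∈ (liftF ω f).support, K * N ≤ dot κ₁ α := by
    intro m hm
    obtain ⟨α, hα, rfl⟩ := mem_lift.1 hm
    rw [hdot]
    have := Nat.mul_le_mul_left K (hM α hα)
    omega
  obtain ⟨b₀, hb₀⟩ := hBne
  have hface : ∀ m, m ∈ face (liftF ω f).support κ₁ ↔ ∃ α ∈ B, lft ω α = m := by
    intro m
    constructor
    · rintro ⟨hm, hmin⟩
      obtain ⟨α, hα, rfl⟩ := mem_lift.1 hm
      have h1 := hmin (lft ω b₀) (mem_lift.2 ⟨b₀, hBM hb₀, rfl⟩)
      rw [hBd b₀ hb₀, hdot] at h1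
      have := Nat.mul_le_mul_left K (hM α hα)
      exact ⟨α, (hωB α hα).1 (by omega), rfl⟩
    · rintro ⟨α, hα, rfl⟩
      refine ⟨mem_lift.2 ⟨α, hBM hα, rfl⟩, fun β hβ => ?_⟩
      rw [hBd α hα]
      exact hge β hβ
  refine ⟨hge, ⟨lft ω b₀, mem_lift.2 ⟨b₀, hBM hb₀, rfl⟩, hBd b₀ hb₀⟩, ?_, ?_, card_lift ω f, ?_⟩
  · -- flat
    intro v hv0 hv1
    have hvn : v none = 0 := hv0 none (Or.inr (by simp [actv]))
    rw [Fintype.sum_option, hvn, zero_add]
    refine hflat (fun i => v (some i)) (fun i hi => hv0 (some i) (Or.inl ?_)) fun α hα => ?_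
    · simp [hκ₁, wOpt, hi]
    · have h1 := hv1 (lft ω α) ((hface _).2 ⟨α, hα, rfl⟩)
      rw [Fintype.sum_option, hvn, zero_mul, zero_add] at h1
      simp only [lft_some] at h1
      exact h1
  · -- not UB1A
    rintro ⟨A', hA', j', ⟨hj'a, hj'0, hj'1, hj'2⟩, huniq⟩
    obtain ⟨A, hA, rfl⟩ := (hface A').1 hA'
    obtain ⟨j, rfl⟩ : ∃ j, j' = some j := by
      cases j' with
      | none => exact absurd rfl hj'a
      | some j => exact ⟨j, rfl⟩
    have hκj : κ j ≠ 0 := by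
      intro h
      apply hj'0
      simp [hκ₁, wOpt, h]
    rw [lft_some] at hj'1
    obtain ⟨l, hlj, hl0, hl1, hl2⟩ := hub A hA j hκj hj'1 (fun β hβ hne => by
      have h1 := hj'2 (lft ω β) ((hface _).2 ⟨β, hβ, rfl⟩) (fun h => hne (lft_inj ω h))
      rwa [lft_some] at h1)
    have h1 := huniq (some l) ⟨by simp [actv], by
      simp only [hκ₁, wOpt]
      exact Nat.mul_ne_zero (by omega) hl0, by rw [lft_some]; exact hl1, fun β' hβ' hne => by
        obtain ⟨β, hβ, rfl⟩ := (hface β').1 hβ'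
        rw [lft_some]
        exact hl2 β hβ (fun h => hne (by rw [h]))⟩
    exact hlj (Option.some_injective σ h1)
  · intro q κ' hq hκn hκ0 hκs hκge hκf hκe
    have hNN : 0 < q * (K * N) := Nat.mul_pos hq (Nat.mul_pos (by omega) hN)
    refine ⟨?_, ?_⟩
    · have h1 := simpA_of f ω F hF' κ' (q * (K * N)) hNN (by omega)
      exact h1
    · exact sumA_of f ω H hH κ N K q hN hKb hq B hBM hBN lam hlam κ' hκn hκ0 hκs
        (fun α hα => hκe _ (hκf _ ((hface _).2 ⟨α, hα, rfl⟩))) hκe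

end Pool.Agent.GEN.H47
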